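import Pool.Agent.V1185.GreedyWalk

/-!
For `cos 2πα = -2/3` there is an admissible starting point whose sign sequence is
not eventually periodic.
-/

namespace Pool.Agent.Results.MP_e36abb_an.NotEventuallyPeriodic

open Filter Topology Pool.Agent.V1185.GreedyWalk

noncomputable section

/-- the angle -/
def θ : ℝ := Real.arccos (-2 / 3)

/-- the rotation number -/
def α : ℝ := θ / (2 * Real.pi)

lemma cos_θ : Real.cos θ = -2 / 3 := Real.cos_arccos (by norm_num) (by norm_num)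

lemma sin_θ_sq : Real.sin θ ^ 2 = 5 / 9 := by
  have := Real.sin_sq_add_cos_sq θ
  rw [cos_θ] at this
  linarith

lemma sin_θ_pos : 0 < Real.sin θ := by
  have h0 : 0 ≤ Real.sin θ :=
    Real.sin_nonneg_of_nonneg_of_le_pi (Real.arccos_nonneg _) (Real.arccos_le_pi _)
  rcases h0.eq_or_lt with h | h
  · have := sin_θ_sq
    rw [← h] at this
    norm_num at this
  · exact h

lemma θ_pos : 0 < θ := by
  rcases (Real.arccos_nonneg (-2 / 3)).eq_or_lt with h | h
  · have := cos_θ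
    rw [θ, ← h, Real.cos_zero] at this
    norm_num at this
  · exact h

lemma α_pos : 0 < α := div_pos θ_pos Real.two_pi_pos

lemma two_pi_α : 2 * Real.pi * α = θ := by
  rw [α]; field_simp

lemma α_irr : Irrational α := by
  rintro ⟨q, hq⟩
  have h := niven (θ := θ) ⟨2 * q, by
    rw [← two_pi_α, ← hq]; push_cast; ring⟩ ⟨-2 / 3, by rw [cos_θ]; push_cast; ring⟩
  rw [cos_θ] at h
  simp only [Set.mem_insert_iff, Set.mem_singleton_iff] at h
  norm_num at h

/-- `w = e^{2π i α}` -/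
def w : ℂ := dir α 1

lemma w_eq : w = ⟨-2 / 3, Real.sin θ⟩ := by
  rw [w, dir]
  have : (2 * Real.pi * Complex.I * α * (1 : ℕ) : ℂ) = ((θ : ℝ) : ℂ) * Complex.I := by
    rw [← two_pi_α]; push_cast; ring
  rw [this]
  apply Complex.ext
  · rw [Complex.exp_ofReal_mul_I_re, cos_θ]
  · rw [Complex.exp_ofReal_mul_I_im]

lemma norm_w : ‖w‖ = 1 := norm_dir α 1

/-- the inverse of `w` -/
def b : ℂ := ⟨-2 / 3, -Real.sin θ⟩

lemma b_mul_w : b * w = 1 := by
  rw [w_eq, b]
  have := sin_θ_sq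
  apply Complex.ext
  · simp; nlinarith
  · simp; ring

lemma w_mul_b : w * b = 1 := by rw [mul_comm, b_mul_w]

lemma norm_b : ‖b‖ = 1 := by
  have := congrArg norm b_mul_w
  rwa [norm_mul, norm_w, mul_one, norm_one] at this

lemma w_add_b : w + b = -4 / 3 := by
  rw [w_eq, b]
  apply Complex.ext
  · simp; norm_num
  · simp

/-- `F` is the effect of three minus signs. -/
def F (u : ℂ) : ℂ := b ^ 3 * u + (2 / 3) * b ^ 2

lemma F_eq (u : ℂ) : b * (b * (b * (u - 2) - 2) - 2) = F u := by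
  rw [F]
  have h1 := w_add_b
  have h2 := b_mul_w
  linear_combination (-2 * b ^ 2) * h1 + (2 * b) * h2

/-- inverse of `F` -/
def Finv (y : ℂ) : ℂ := w ^ 3 * y - (2 / 3) * w

lemma F_Finv (y : ℂ) : F (Finv y) = y := by
  rw [F, Finv]
  have h2 := b_mul_w
  have h3 : b ^ 3 * w ^ 3 = 1 := by rw [← mul_pow, h2, one_pow]
  linear_combination y * h3 - (2 / 3) * b ^ 2 * h2

lemma Finv_F (u : ℂ) : Finv (F u) = u := by
  rw [F, Finv]
  have h2 := b_mul_w
  have h3 : b ^ 3 * w ^ 3 = 1 := by rw [← mul_pow, h2, one_pow]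
  linear_combination u * h3 + (2 / 3) * w * (b * w + 1) * h2

/-- points of the closed half disc -/
def C (ε : ℝ) : Set ℂ := {v | ‖v - 1 / 2‖ ≤ ε ∧ 1 / 2 ≤ v.re}

lemma abs_re_le {v : ℂ} {a : ℂ} {ε : ℝ} (h : ‖v - a‖ < ε) : |v.re - a.re| < ε := by
  have := (Complex.abs_re_le_norm (v - a)).trans_lt h
  simpa using this

/-- A good unit number. -/
lemma exists_good (ε : ℝ) (hε : 0 < ε) : ∃ c : ℂ, ‖c‖ = 1 ∧
    ‖w ^ 2 * c / 2 - (2 / 3) * w - 1 / 2‖ < ε ∧ 1 / 2 < (w ^ 2 * c / 2 - (2 / 3) * w).re := by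
  set t : ℝ := min ε 1 with ht
  have ht0 : 0 < t := lt_min hε one_pos
  have ht1 : t ≤ 1 := min_le_right _ _
  have htε : t ≤ ε := min_le_left _ _
  refine ⟨-Complex.exp ((-t : ℝ) * Complex.I), ?_, ?_, ?_⟩
  · rw [norm_neg, Complex.norm_exp_ofReal_mul_I]
  · have e1 : w ^ 2 * (-Complex.exp ((-t : ℝ) * Complex.I)) / 2 - (2 / 3) * w - 1 / 2 =
        -(w ^ 2 / 2) * (Complex.exp ((-t : ℝ) * Complex.I) - 1) := by
      have h1 := w_add_b
      have h2 := b_mul_w
      linear_combination (-(w / 2)) * h1 + (1 / 2) * h2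
    rw [e1, norm_mul, norm_neg, norm_div, norm_pow, norm_w]
    have h3 : ‖Complex.exp ((-t : ℝ) * Complex.I) - 1‖ ≤ t := by
      have := Real.norm_exp_I_mul_ofReal_sub_one_le (x := -t)
      rw [mul_comm] at this
      rw [Real.norm_eq_abs, abs_neg, abs_of_pos ht0] at this
      exact this
    have : (1 : ℝ) ^ 2 / ‖(2 : ℂ)‖ = 1 / 2 := by norm_num
    rw [this]
    linarith
  · have hw2 : w ^ 2 = ⟨-1 / 9, -4 / 3 * Real.sin θ⟩ := by
      rw [w_eq, sq]
      have := sin_θ_sq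
      apply Complex.ext
      · simp; nlinarith
      · simp; ring
    have he : Complex.exp ((-t : ℝ) * Complex.I) = ⟨Real.cos t, -Real.sin t⟩ := by
      apply Complex.ext
      · rw [Complex.exp_ofReal_mul_I_re, Real.cos_neg]
      · rw [Complex.exp_ofReal_mul_I_im, Real.sin_neg]
    rw [hw2, he, w_eq]
    have hcos := Real.one_sub_sq_div_two_le_cos (x := t)
    have hsin := Real.sin_gt_sub_cube ht0
    have hs := sin_θ_sq
    have hs0 := sin_θ_pos
    have hs1 : 2 / 3 < Real.sin θ := by nlinarith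
    have hre : ((⟨-1 / 9, -4 / 3 * Real.sin θ⟩ : ℂ) * -(⟨Real.cos t, -Real.sin t⟩ : ℂ) / 2 -
        (2 / 3) * (⟨-2 / 3, Real.sin θ⟩ : ℂ)).re =
        Real.cos t / 18 + 2 / 3 * (Real.sin θ * Real.sin t) + 4 / 9 := by
      simp
      ring
    rw [hre]
    have h5 : 2 / 3 * Real.sin t ≤ Real.sin θ * Real.sin t := by
      apply mul_le_mul_of_nonneg_right hs1.le
      have : t ^ 3 ≤ t := by nlinarith [mul_pos ht0 ht0]
      nlinarith
    have h6 : t ^ 3 ≤ t := by nlinarith [mul_pos ht0 ht0]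
    have h7 : t ^ 2 ≤ t := by nlinarith
    nlinarith

/-- The key step. -/
lemma step (N : ℕ) (ε : ℝ) : ∃ (k : ℕ) (ε' : ℝ), 0 < ε → N ≤ k ∧ 0 < ε' ∧ ε' ≤ ε ∧
    ∀ v ∈ C ε', (‖Finv (w ^ k * v) - 1 / 2‖ < ε ∧ 1 / 2 < (Finv (w ^ k * v)).re) ∧
      ∀ j, 1 ≤ j → j ≤ k → (w ^ j * v).re < 1 / 2 := by
  rcases le_or_gt ε 0 with hε | hε
  · exact ⟨0, 0, fun h => absurd h (not_lt.mpr hε)⟩
  obtain ⟨c, hc1, hc2, hc3⟩ := exists_good ε hε
  have hO : {c : ℂ | ‖w ^ 2 * c / 2 - (2 / 3) * w - 1 / 2‖ < ε ∧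
      1 / 2 < (w ^ 2 * c / 2 - (2 / 3) * w).re} ∈ 𝓝 c := by
    have f1 : Continuous (fun c : ℂ => ‖w ^ 2 * c / 2 - (2 / 3) * w - 1 / 2‖) := by fun_prop
    have f2 : Continuous (fun c : ℂ => (w ^ 2 * c / 2 - (2 / 3) * w).re) :=
      Complex.continuous_re.comp (by fun_prop)
    exact Filter.inter_mem (f1.continuousAt.eventually_lt continuousAt_const hc2)
      (continuousAt_const.eventually_lt f2.continuousAt hc3)
  obtain ⟨n, hn, hn2⟩ := exists_pow_mem α α_irr c hc1 _ hO (N + 1)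
  obtain ⟨k, rfl⟩ : ∃ k, n = k + 1 := ⟨n - 1, by omega⟩
  change ‖w ^ 2 * w ^ (k + 1) / 2 - (2 / 3) * w - 1 / 2‖ < ε ∧
      1 / 2 < (w ^ 2 * w ^ (k + 1) / 2 - (2 / 3) * w).re at hn2
  have e1 : w ^ 2 * w ^ (k + 1) / 2 - (2 / 3) * w = Finv (w ^ k * (1 / 2)) := by
    rw [Finv]; ring
  rw [e1] at hn2
  have hev : ∀ᶠ v : ℂ in 𝓝 (1 / 2), ((‖Finv (w ^ k * v) - 1 / 2‖ < ε ∧
      1 / 2 < (Finv (w ^ k * v)).re) ∧ ∀ j ∈ Finset.Icc 1 k, (w ^ j * v).re < 1 / 2) := by
    refine Filter.Eventually.and (Filter.Eventually.and ?_ ?_) ?_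
    · have : Continuous (fun v : ℂ => ‖Finv (w ^ k * v) - 1 / 2‖) := by
        unfold Finv; fun_prop
      exact this.continuousAt.eventually_lt continuousAt_const hn2.1
    · have : Continuous (fun v : ℂ => (Finv (w ^ k * v)).re) := by
        unfold Finv; exact Complex.continuous_re.comp (by fun_prop)
      exact continuousAt_const.eventually_lt this.continuousAt hn2.2
    · rw [Filter.eventually_all_finset]
      intro j hj
      rw [Finset.mem_Icc] at hj
      have : Continuous (fun v : ℂ => (w ^ j * v).re) := Complex.continuous_re.comp (by fun_prop)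
      refine this.continuousAt.eventually_lt continuousAt_const ?_
      have h1 : w ^ j ≠ 1 := pow_ne_one α α_irr j hj.1
      have h2 : ‖w ^ j‖ = 1 := by rw [norm_pow, norm_w, one_pow]
      have h3 : (w ^ j).re ^ 2 + (w ^ j).im ^ 2 = 1 := by
        have := Complex.sq_norm (w ^ j)
        rw [h2, Complex.normSq_apply] at this
        linarith
      have h4 : (w ^ j).re < 1 := by
        have h5 : (w ^ j).re ≤ 1 := by nlinarith [sq_nonneg (w ^ j).im]
        rcases h5.eq_or_lt with h | h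
        · exfalso
          apply h1
          have h6 : (w ^ j).im = 0 := by rw [h] at h3; nlinarith
          exact Complex.ext (by simpa using h) (by simpa using h6)
        · exact h
      have h7 : (w ^ j * (1 / 2)).re = (w ^ j).re / 2 := by
        simp [Complex.mul_re]; ring
      rw [h7]; linarith
  rw [Metric.eventually_nhds_iff] at hev
  obtain ⟨δ, hδ, hδ2⟩ := hev
  refine ⟨k, min (δ / 2) ε, fun _ => ⟨by omega, lt_min (by linarith) hε, min_le_right _ _, ?_⟩⟩
  intro v hv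
  have h1 : dist v (1 / 2) < δ := by
    rw [dist_eq_norm]
    have := hv.1.trans (min_le_left _ _)
    linarith
  have h2 := hδ2 h1
  exact ⟨h2.1, fun j hj1 hj2 => h2.2 j (Finset.mem_Icc.mpr ⟨hj1, hj2⟩)⟩

/-- chosen block length -/
def K (N : ℕ) (ε : ℝ) : ℕ := (step N ε).choose

/-- chosen radius -/
def E (N : ℕ) (ε : ℝ) : ℝ := (step N ε).choose_spec.choose

lemma KE_spec (N : ℕ) (ε : ℝ) (hε : 0 < ε) : N ≤ K N ε ∧ 0 < E N ε ∧ E N ε ≤ ε ∧
    ∀ v ∈ C (E N ε), (‖Finv (w ^ K N ε * v) - 1 / 2‖ < ε ∧ 1 / 2 < (Finv (w ^ K N ε * v)).re) ∧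
      ∀ j, 1 ≤ j → j ≤ K N ε → (w ^ j * v).re < 1 / 2 :=
  (step N ε).choose_spec.choose_spec hε

/-- radii -/
def eps : ℕ → ℝ
  | 0 => 1 / 100
  | n + 1 => E n (eps n)

/-- block lengths -/
def kk (n : ℕ) : ℕ := K n (eps n)

lemma eps_pos (n : ℕ) : 0 < eps n := by
  induction n with
  | zero => norm_num [eps]
  | succ n ih => exact (KE_spec n (eps n) ih).2.1

lemma eps_le (n : ℕ) : eps n ≤ 1 / 100 := by
  induction n with
  | zero => norm_num [eps]
  | succ n ih => exact ((KE_spec n (eps n) (eps_pos n)).2.2.1).trans ih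

lemma kk_ge (n : ℕ) : n ≤ kk n := (KE_spec n (eps n) (eps_pos n)).1

lemma block (n : ℕ) (v : ℂ) (hv : v ∈ C (eps (n + 1))) :
    (‖Finv (w ^ kk n * v) - 1 / 2‖ < eps n ∧ 1 / 2 < (Finv (w ^ kk n * v)).re) ∧
      ∀ j, 1 ≤ j → j ≤ kk n → (w ^ j * v).re < 1 / 2 :=
  (KE_spec n (eps n) (eps_pos n)).2.2.2 v hv

/-- block maps -/
def Φ (n : ℕ) (u : ℂ) : ℂ := b ^ kk n * F u

/-- composed block maps -/
def A : ℕ → ℂ → ℂ
  | 0 => id
  | n + 1 => fun u => Φ n (A n u)

lemma continuous_A (n : ℕ) : Continuous (A n) := by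
  induction n with
  | zero => exact continuous_id
  | succ n ih =>
    have : Continuous (Φ n) := by unfold Φ F; fun_prop
    exact this.comp ih

lemma pow_cancel (k : ℕ) (y : ℂ) : b ^ k * (w ^ k * y) = y := by
  rw [← mul_assoc, ← mul_pow, b_mul_w, one_pow, one_mul]

lemma pow_cancel' (k : ℕ) (y : ℂ) : w ^ k * (b ^ k * y) = y := by
  rw [← mul_assoc, ← mul_pow, w_mul_b, one_pow, one_mul]

lemma Φ_inv (n : ℕ) (v : ℂ) : Φ n (Finv (w ^ kk n * v)) = v := by
  rw [Φ, F_Finv, pow_cancel]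

lemma inv_Φ (n : ℕ) (u : ℂ) : Finv (w ^ kk n * Φ n u) = u := by
  rw [Φ, pow_cancel', Finv_F]

/-- nested sets -/
def KS (n : ℕ) : Set ℂ := {u | ∀ m, m ≤ n → A m u ∈ C (eps m)}

lemma isClosed_C (ε : ℝ) : IsClosed (C ε) := by
  have f1 : Continuous (fun v : ℂ => ‖v - 1 / 2‖) := by fun_prop
  exact (isClosed_le f1 continuous_const).inter (isClosed_le continuous_const Complex.continuous_re)

lemma isClosed_KS (n : ℕ) : IsClosed (KS n) := by
  have : KS n = ⋂ m, ⋂ (_ : m ≤ n), (A m) ⁻¹' (C (eps m)) := by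
    ext u; simp [KS]
  rw [this]
  exact isClosed_iInter fun m => isClosed_iInter fun _ => (isClosed_C _).preimage (continuous_A m)

lemma exists_preimage (n : ℕ) : ∀ v ∈ C (eps n), ∃ u, A n u = v ∧ u ∈ KS n := by
  induction n with
  | zero =>
    intro v hv
    refine ⟨v, rfl, fun m hm => ?_⟩
    obtain rfl : m = 0 := by omega
    exact hv
  | succ n ih =>
    intro v hv
    obtain ⟨⟨h1, h2⟩, -⟩ := block n v hv
    obtain ⟨u, hu1, hu2⟩ := ih (Finv (w ^ kk n * v)) ⟨h1.le, h2.le⟩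
    have h3 : A (n + 1) u = v := by
      change Φ n (A n u) = v
      rw [hu1, Φ_inv]
    refine ⟨u, h3, fun m hm => ?_⟩
    rcases Nat.lt_or_ge m (n + 1) with h | h
    · exact hu2 m (by omega)
    · obtain rfl : m = n + 1 := by omega
      rw [h3]; exact hv

lemma exists_point : ∃ u, ∀ n, A n u ∈ C (eps n) := by
  have hne : ∀ n, (KS n).Nonempty := by
    intro n
    obtain ⟨u, -, hu⟩ := exists_preimage n (1 / 2) ⟨by simpa using (eps_pos n).le, by simp⟩
    exact ⟨u, hu⟩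
  have hcomp : IsCompact (KS 0) := by
    refine Metric.isCompact_of_isClosed_isBounded (isClosed_KS 0) ?_
    refine (Metric.isBounded_closedBall (x := (1 / 2 : ℂ)) (r := eps 0)).subset ?_
    intro u hu
    have := hu 0 le_rfl
    rw [Metric.mem_closedBall, dist_eq_norm]
    exact this.1
  obtain ⟨u, hu⟩ := IsCompact.nonempty_iInter_of_sequence_nonempty_isCompact_isClosed KS
    (fun n u hu m hm => hu m (by omega)) hne hcomp isClosed_KS
  refine ⟨u, fun n => ?_⟩
  exact (Set.mem_iInter.mp hu n) n le_rfl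

/-- the starting point in the rotating frame -/
def u₀ : ℂ := exists_point.choose

/-- block starts -/
def v (n : ℕ) : ℂ := A n u₀

lemma v_mem (n : ℕ) : v n ∈ C (eps n) := exists_point.choose_spec n

lemma v_succ (n : ℕ) : v (n + 1) = Φ n (v n) := rfl

lemma v_spec (n : ℕ) : ‖v n - 1 / 2‖ < 1 / 100 ∧ 1 / 2 < (v n).re ∧
    ∀ j, 1 ≤ j → j ≤ kk n → (w ^ j * v (n + 1)).re < 1 / 2 := by
  obtain ⟨⟨h1, h2⟩, h3⟩ := block n (v (n + 1)) (v_mem (n + 1))
  rw [v_succ, inv_Φ] at h1 h2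
  exact ⟨h1.trans_le (eps_le n), h2, h3⟩

/-- the piecewise isometry -/
def T (x : ℂ) : ℂ := if x.re < 1 / 2 then b * x else b * (x - 2)

/-- its orbit -/
def o (m : ℕ) : ℂ := T^[m] u₀

lemma o_succ (m : ℕ) : o (m + 1) = T (o m) := Function.iterate_succ_apply' T m u₀

/-- starting times of the blocks -/
def t : ℕ → ℕ
  | 0 => 0
  | n + 1 => t n + 3 + kk n

lemma norm_helper (x a : ℂ) : ‖b * x - b * a‖ = ‖x - a‖ := by
  rw [← mul_sub, norm_mul, norm_b, one_mul]

lemma near (n : ℕ) : 1 / 2 < (b * (v n - 2)).re ∧ 1 / 2 < (b * (b * (v n - 2) - 2)).re := by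
  obtain ⟨h1, -, -⟩ := v_spec n
  constructor
  · have h2 : ‖b * (v n - 2) - b * (1 / 2 - 2)‖ < 1 / 100 := by
      rw [norm_helper]
      have : v n - 2 - (1 / 2 - 2) = v n - 1 / 2 := by ring
      rw [this]; exact h1
    have h3 := abs_re_le h2
    have h4 : (b * (1 / 2 - 2)).re = 1 := by
      simp [b]; norm_num
    rw [h4, abs_lt] at h3
    linarith [h3.1]
  · have h2 : ‖b * (b * (v n - 2) - 2) - b * (b * (1 / 2 - 2) - 2)‖ < 1 / 100 := by
      rw [norm_helper]
      have : b * (v n - 2) - 2 - (b * (1 / 2 - 2) - 2) = b * (v n) - b * (1 / 2) := by ring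
      rw [this, norm_helper]; exact h1
    have h3 := abs_re_le h2
    have h4 : (b * (b * (1 / 2 - 2) - 2)).re = 3 / 2 := by
      have := sin_θ_sq
      simp [b]
      nlinarith
    rw [h4, abs_lt] at h3
    linarith [h3.1]

lemma o_step (n : ℕ) (h : o (t n) = v n) :
    o (t n + 1) = b * (v n - 2) ∧ o (t n + 2) = b * (b * (v n - 2) - 2) ∧
    ∀ j, j ≤ kk n → o (t n + 3 + j) = b ^ j * F (v n) ∧
      (j < kk n → (o (t n + 3 + j)).re < 1 / 2) := by
  obtain ⟨-, h2, h3⟩ := v_spec n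
  obtain ⟨h4, h5⟩ := near n
  have e1 : o (t n + 1) = b * (v n - 2) := by
    rw [o_succ, h, T, if_neg (by linarith)]
  have e2 : o (t n + 2) = b * (b * (v n - 2) - 2) := by
    rw [show t n + 2 = (t n + 1) + 1 from rfl, o_succ, e1, T, if_neg (by linarith)]
  have e3 : o (t n + 3) = F (v n) := by
    rw [show t n + 3 = (t n + 2) + 1 from rfl, o_succ, e2, T, if_neg (by linarith), F_eq]
  have hre : ∀ j, j < kk n → (b ^ j * F (v n)).re < 1 / 2 := by
    intro j hj
    have h6 := h3 (kk n - j) (by omega) (by omega)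
    rw [v_succ, Φ] at h6
    have : w ^ (kk n - j) * (b ^ kk n * F (v n)) = b ^ j * F (v n) := by
      obtain ⟨i, hi⟩ : ∃ i, kk n = i + j := ⟨kk n - j, by omega⟩
      rw [hi, Nat.add_sub_cancel, pow_add, mul_assoc, pow_cancel']
    rwa [this] at h6
  refine ⟨e1, e2, fun j => ?_⟩
  induction j with
  | zero =>
    intro _
    refine ⟨by simpa using e3, fun hj => ?_⟩
    rw [add_zero, e3]
    simpa using hre 0 hj
  | succ j ih =>
    intro hj
    obtain ⟨i1, i2⟩ := ih (by omega)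
    have e4 : o (t n + 3 + (j + 1)) = b ^ (j + 1) * F (v n) := by
      rw [← add_assoc, o_succ, T, if_pos (i2 (by omega)), i1]; ring
    exact ⟨e4, fun hj2 => by rw [e4]; exact hre _ hj2⟩

lemma o_t (n : ℕ) : o (t n) = v n := by
  induction n with
  | zero => rfl
  | succ n ih =>
    have := ((o_step n ih).2.2 (kk n) le_rfl).1
    rw [v_succ, Φ]
    exact this

lemma t_ge (n : ℕ) : n ≤ t n := by
  induction n with
  | zero => simp
  | succ n ih => simp only [t]; omega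

lemma exists_block (m : ℕ) : ∃ n, t n ≤ m ∧ m < t (n + 1) := by
  induction m with
  | zero => exact ⟨0, le_rfl, by simp [t]⟩
  | succ m ih =>
    obtain ⟨n, h1, h2⟩ := ih
    rcases Nat.lt_or_ge (m + 1) (t (n + 1)) with h | h
    · exact ⟨n, by omega, h⟩
    · refine ⟨n + 1, h, ?_⟩
      have h5 : m + 1 = t (n + 1) := by omega
      have h6 : t (n + 1 + 1) = t (n + 1) + 3 + kk (n + 1) := rfl
      omega

lemma re_ne (m : ℕ) : (o m).re ≠ 1 / 2 := by
  obtain ⟨n, h1, h2⟩ := exists_block m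
  obtain ⟨e1, e2, e3⟩ := o_step n (o_t n)
  obtain ⟨-, h4, -⟩ := v_spec n
  obtain ⟨h5, h6⟩ := near n
  rcases (by omega : m = t n ∨ m = t n + 1 ∨ m = t n + 2 ∨ t n + 3 ≤ m) with h | h | h | h
  · rw [h, o_t]; exact h4.ne'
  · rw [h, e1]; exact h5.ne'
  · rw [h, e2]; exact h6.ne'
  · obtain ⟨j, rfl⟩ : ∃ j, m = t n + 3 + j := ⟨m - (t n + 3), by omega⟩
    have hj : j < kk n := by
      simp only [t] at h2
      omega
    exact ((e3 j hj.le).2 hj).ne

/-- signs -/
def s (m : ℕ) : ℤ := if (o m).re < 1 / 2 then 1 else -1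

theorem not_eventuallyPeriodic : ¬ EventuallyPeriodic s := by
  rintro ⟨p, hp, N, hN⟩
  set n := max N p with hn
  have h1 : N ≤ n := le_max_left _ _
  have h2 : p ≤ n := le_max_right _ _
  have h3 := kk_ge n
  have h4 := t_ge n
  obtain ⟨-, -, e3⟩ := o_step n (o_t n)
  have hplus : ∀ j, s (t n + 3 + j) = 1 := by
    intro j
    induction j using Nat.strong_induction_on with
    | _ j ih =>
      rcases Nat.lt_or_ge j (kk n) with h | h
      · rw [s, if_pos ((e3 j h.le).2 h)]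
      · have h5 := ih (j - p) (by omega)
        have h6 := hN (t n + 3 + (j - p)) (by omega)
        have h7 : t n + 3 + (j - p) + p = t n + 3 + j := by omega
        rw [h7] at h6
        rw [h6, h5]
  have h8 := hplus (kk n)
  have h9 : t n + 3 + kk n = t (n + 1) := rfl
  rw [h9, s, o_t, if_neg (by linarith [(v_spec (n + 1)).2.1])] at h8
  norm_num at h8

/-- The negated form of Q1. -/
theorem result : ∃ α : ℝ, 0 < α ∧ Irrational α ∧ ∃ z : ℂ, Admissible α z ∧
    ¬ EventuallyPeriodic (signs α z) := by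
  have hw1 : w ≠ 1 := by
    have := pow_ne_one α α_irr 1 le_rfl
    rwa [pow_one] at this
  have hred := reduction α w rfl hw1 b b_mul_w o s (by
    intro m
    rcases lt_or_gt_of_ne (re_ne m) with h | h
    · left
      exact ⟨h, by rw [s, if_pos h], by rw [o_succ, T, if_pos h]⟩
    · right
      exact ⟨h, by rw [s, if_neg (not_lt.mpr h.le)], by rw [o_succ, T, if_neg (not_lt.mpr h.le)]⟩)
  refine ⟨α, α_pos, α_irr, _, hred.1, ?_⟩
  have : signs α (o 0 + 1 / (w - 1)) = s := funext hred.2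
  rw [this]
  exact not_eventuallyPeriodic

end

end Pool.Agent.Results.MP_e36abb_an.NotEventuallyPeriodic
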